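import Mathlib

/-!
The central extension `X × Z` with the law `(x, z)(x', z') = (x + x', z + z' + β(x, x'))`.
-/

namespace Pool.Agent.Q24.TA

/-- the group attached to a bilinear map -/
@[ext]
structure Heis {X Z : Type} [AddCommGroup X] [AddCommGroup Z] (β : X →+ X →+ Z) where
  x : X
  z : Z

namespace Heis

variable {X Z : Type} [AddCommGroup X] [AddCommGroup Z] {β : X →+ X →+ Z}

instance : Mul (Heis β) := ⟨fun p q => ⟨p.x + q.x, p.z + q.z + β p.x q.x⟩⟩
instance : One (Heis β) := ⟨⟨0, 0⟩⟩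
instance : Inv (Heis β) := ⟨fun p => ⟨-p.x, -p.z + β p.x p.x⟩⟩

@[simp] theorem mul_x (p q : Heis β) : (p * q).x = p.x + q.x := rfl
@[simp] theorem mul_z (p q : Heis β) : (p * q).z = p.z + q.z + β p.x q.x := rfl
@[simp] theorem one_x : (1 : Heis β).x = 0 := rfl
@[simp] theorem one_z : (1 : Heis β).z = 0 := rfl
@[simp] theorem inv_x (p : Heis β) : (p⁻¹).x = -p.x := rfl
@[simp] theorem inv_z (p : Heis β) : (p⁻¹).z = -p.z + β p.x p.x := rfl

instance : Group (Heis β) where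
  mul_assoc p q r := by
    ext
    · simp [add_assoc]
    · simp
      abel
  one_mul p := by ext <;> simp
  mul_one p := by ext <;> simp
  inv_mul_cancel p := by
    ext
    · simp
    · simp

/-- the projection to `X` -/
def toX (β : X →+ X →+ Z) : Heis β →* Multiplicative X where
  toFun p := Multiplicative.ofAdd p.x
  map_one' := rfl
  map_mul' _ _ := rfl

/-- the inclusion of `Z` -/
def ofZ (β : X →+ X →+ Z) : Multiplicative Z →* Heis β where
  toFun z := ⟨0, z.toAdd⟩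
  map_one' := rfl
  map_mul' p q := by ext <;> simp

theorem mem_center_of {p : Heis β} (h : p.x = 0) : p ∈ Subgroup.center (Heis β) := by
  rw [Subgroup.mem_center_iff]
  intro q
  ext
  · simp [h]
  · simp [h, add_comm]

theorem isNilpotent (β : X →+ X →+ Z) : Group.IsNilpotent (Heis β) := by
  apply Subgroup.isNilpotent_of_ker_le_center (toX β)
  intro p hp
  exact mem_center_of (Multiplicative.ofAdd.injective hp)

theorem pow_x (p : Heis β) (n : ℕ) : (p ^ n).x = n • p.x := by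
  induction n with
  | zero => simp
  | succ n ih => rw [pow_succ, mul_x, ih, succ_nsmul]

theorem pow_z (p : Heis β) (hp : p.x = 0) (n : ℕ) : (p ^ n).z = n • p.z := by
  induction n with
  | zero => simp
  | succ n ih => rw [pow_succ, mul_z, ih, succ_nsmul, hp]; simp

theorem torsionFree (hX : ∀ (x : X) (n : ℕ), 0 < n → n • x = 0 → x = 0)
    (hZ : ∀ (x : Z) (n : ℕ), 0 < n → n • x = 0 → x = 0) (p : Heis β) (n : ℕ) (hn : 0 < n)
    (h : p ^ n = 1) : p = 1 := by
  have h1 : p.x = 0 := hX p.x n hn (by rw [← pow_x, h]; rfl)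
  have h2 : p.z = 0 := hZ p.z n hn (by rw [← pow_z p h1, h]; rfl)
  ext
  · exact h1
  · exact h2

theorem fg [AddGroup.FG X] [AddGroup.FG Z] (β : X →+ X →+ Z) : Group.FG (Heis β) := by
  classical
  obtain ⟨S, hS, hSf⟩ := (AddGroup.fg_iff (G := X)).1 inferInstance
  obtain ⟨T, hT, hTf⟩ := (AddGroup.fg_iff (G := Z)).1 inferInstance
  rw [Group.fg_iff]
  refine ⟨(fun x => (⟨x, 0⟩ : Heis β)) '' S ∪ (fun z => (⟨0, z⟩ : Heis β)) '' T, ?_,
    (hSf.image _).union (hTf.image _)⟩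
  set K := (fun x => (⟨x, 0⟩ : Heis β)) '' S ∪ (fun z => (⟨0, z⟩ : Heis β)) '' T with hK
  have h1 : ∀ z : Z, (⟨0, z⟩ : Heis β) ∈ Subgroup.closure K := by
    intro z
    have hz : z ∈ AddSubgroup.closure T := by rw [hT]; trivial
    induction hz using AddSubgroup.closure_induction with
    | mem t ht => exact Subgroup.subset_closure (Or.inr ⟨t, ht, rfl⟩)
    | zero => exact one_mem _
    | add a b _ _ ha hb =>
      have : (⟨0, a + b⟩ : Heis β) = ⟨0, a⟩ * ⟨0, b⟩ := by ext <;> simp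
      rw [this]; exact mul_mem ha hb
    | neg a _ ha =>
      have : (⟨0, -a⟩ : Heis β) = (⟨0, a⟩)⁻¹ := by ext <;> simp
      rw [this]; exact inv_mem ha
  have h2 : ∀ x : X, ∃ z : Z, (⟨x, z⟩ : Heis β) ∈ Subgroup.closure K := by
    intro x
    have hx : x ∈ AddSubgroup.closure S := by rw [hS]; trivial
    induction hx using AddSubgroup.closure_induction with
    | mem t ht => exact ⟨0, Subgroup.subset_closure (Or.inl ⟨t, ht, rfl⟩)⟩
    | zero => exact ⟨0, one_mem _⟩
    | add a b _ _ ha hb =>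
      obtain ⟨z, hz⟩ := ha
      obtain ⟨w, hw⟩ := hb
      exact ⟨_, mul_mem hz hw⟩
    | neg a _ ha =>
      obtain ⟨z, hz⟩ := ha
      exact ⟨_, inv_mem hz⟩
  rw [eq_top_iff]
  intro p _
  obtain ⟨z, hz⟩ := h2 p.x
  have : p = ⟨p.x, z⟩ * ⟨0, p.z - z⟩ := by ext <;> simp
  rw [this]
  exact mul_mem hz (h1 _)

open scoped commutatorElement

/-- the antisymmetrization -/
def om (β : X →+ X →+ Z) (x y : X) : Z := β x y - β y x

theorem commutator_eq (p q : Heis β) : ⁅p, q⁆ = ⟨0, om β p.x q.x⟩ := by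
  have h : p * q = ⟨0, om β p.x q.x⟩ * (q * p) := by
    ext
    · simp [add_comm]
    · simp [om]; abel
  rw [commutatorElement_def, h]
  group

section aut

variable (ψ : Heis β ≃* Heis β) (hnd : ∀ x : X, (∀ y : X, β x y = β y x) → x = 0)

theorem comm_iff (p q : Heis β) : p * q = q * p ↔ β p.x q.x = β q.x p.x := by
  constructor
  · intro h
    have h2 := congrArg Heis.z h
    simp only [mul_z] at h2
    have h3 : p.z + q.z + β p.x q.x = p.z + q.z + β q.x p.x := by
      rw [h2]; abel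
    exact add_left_cancel h3
  · intro h
    ext
    · simp [add_comm]
    · simp [h, add_comm]

include hnd in
theorem x_zero_iff (p : Heis β) : p.x = 0 ↔ ∀ q, p * q = q * p := by
  constructor
  · intro h q
    rw [comm_iff, h]; simp
  · intro h
    apply hnd
    intro y
    exact (comm_iff p ⟨y, 0⟩).1 (h _)

include hnd in
theorem aut_x_zero_iff (p : Heis β) : (ψ p).x = 0 ↔ p.x = 0 := by
  rw [x_zero_iff hnd, x_zero_iff hnd]
  constructor
  · intro h q
    apply ψ.injective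
    rw [map_mul, map_mul, h]
  · intro h q
    have := congrArg ψ (h (ψ.symm q))
    rw [map_mul, map_mul, ψ.apply_symm_apply] at this
    exact this

include hnd in
/-- Every automorphism induces compatible maps on `X` and on `Z`. -/
theorem exists_induced : ∃ (g : X →+ X) (G : Z →+ Z), (∀ p, (ψ p).x = g p.x) ∧
    (∀ z, ψ ⟨0, z⟩ = ⟨0, G z⟩) ∧ Function.Injective g ∧ Function.Surjective g ∧
    Function.Injective G ∧ ∀ x y, G (om β x y) = om β (g x) (g y) := by
  have hz0 : ∀ z, (ψ ⟨0, z⟩).x = 0 := fun z => (aut_x_zero_iff ψ hnd _).2 rfl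
  have hpx : ∀ p : Heis β, (ψ p).x = (ψ ⟨p.x, 0⟩).x := by
    intro p
    have : p = ⟨p.x, 0⟩ * ⟨0, p.z⟩ := by ext <;> simp
    rw [this, map_mul, mul_x, hz0, add_zero]
    simp
  set g : X →+ X :=
    { toFun := fun x => (ψ ⟨x, 0⟩).x
      map_zero' := hz0 0
      map_add' := by
        intro x y
        have h1 : (⟨x, 0⟩ : Heis β) * ⟨y, 0⟩ = ⟨x + y, β x y⟩ := by ext <;> simp
        have h2 := hpx ⟨x + y, β x y⟩
        rw [← h1, map_mul, mul_x] at h2
        exact h2.symm } with hg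
  set G : Z →+ Z :=
    { toFun := fun z => (ψ ⟨0, z⟩).z
      map_zero' := by
        have : (⟨0, 0⟩ : Heis β) = 1 := rfl
        rw [this, map_one]; rfl
      map_add' := by
        intro x y
        have h1 : (⟨0, x⟩ : Heis β) * ⟨0, y⟩ = ⟨0, x + y⟩ := by ext <;> simp
        rw [← h1, map_mul, mul_z, hz0]
        simp } with hG
  have hψz : ∀ z, ψ ⟨0, z⟩ = ⟨0, G z⟩ := by
    intro z
    ext
    · exact hz0 z
    · rfl
  refine ⟨g, G, hpx, hψz, ?_, ?_, ?_, ?_⟩
  · rw [injective_iff_map_eq_zero]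
    intro x hx
    exact (aut_x_zero_iff ψ hnd ⟨x, 0⟩).1 hx
  · intro y
    refine ⟨(ψ.symm ⟨y, 0⟩).x, ?_⟩
    have h1 := hpx (ψ.symm ⟨y, 0⟩)
    rw [ψ.apply_symm_apply] at h1
    exact h1.symm
  · rw [injective_iff_map_eq_zero]
    intro z hz
    have h1 : ψ ⟨0, z⟩ = 1 := by rw [hψz, hz]; rfl
    have h2 : (⟨0, z⟩ : Heis β) = 1 := by
      apply ψ.injective
      rw [h1, map_one]
    exact congrArg Heis.z h2
  · intro x y
    have h1 := congrArg ψ (commutator_eq (⟨x, 0⟩ : Heis β) ⟨y, 0⟩)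
    rw [map_commutatorElement, commutator_eq, hψz] at h1
    exact (congrArg Heis.z h1).symm

end aut

/-- Finiteness of the set of twisted classes. -/
theorem finite_classes (θ : Heis β ≃* Heis β) (g : X → X) (G : Z → Z) (hg : g 0 = 0)
    (hθ : ∀ p, θ p = ⟨g p.x, G p.z⟩)
    (hF1 : ∃ F : Set X, F.Finite ∧ ∀ x, ∃ u, x + (u - g u) ∈ F)
    (hF2 : ∃ F : Set Z, F.Finite ∧ ∀ x, ∃ u, x + (u - G u) ∈ F) :
    ∃ S : Set (Heis β), S.Finite ∧ ∀ y, ∃ x ∈ S, ∃ h, x = h * y * (θ h)⁻¹ := by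
  obtain ⟨F1, hf1, h1⟩ := hF1
  obtain ⟨F2, hf2, h2⟩ := hF2
  refine ⟨(fun q : X × Z => (⟨q.1, q.2⟩ : Heis β)) '' (F1 ×ˢ F2), (hf1.prod hf2).image _, ?_⟩
  intro y
  obtain ⟨u, hu⟩ := h1 y.x
  set y1 : Heis β := ⟨u, 0⟩ * y * (θ ⟨u, 0⟩)⁻¹ with hy1
  obtain ⟨t, ht⟩ := h2 y1.z
  have hx1 : y1.x = y.x + (u - g u) := by
    rw [hy1, hθ]; simp; abel
  refine ⟨⟨0, t⟩ * y1 * (θ ⟨0, t⟩)⁻¹, ⟨(y1.x, y1.z + (t - G t)), ⟨by rw [hx1]; exact hu, ht⟩, ?_⟩,
    ⟨0, t⟩ * ⟨u, 0⟩, ?_⟩
  · rw [hθ]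
    ext
    · simp [hg]
    · simp [hg]; abel
  · rw [hy1, map_mul]; group

end Heis

/-- Cosets of the image of a map with an integral quasi-inverse. -/
theorem fin_reps {A : Type} [AddCommGroup A] [Module.Finite ℤ A] (T : A →+ A) (V : A → A) (d : ℤ)
    (hd : d ≠ 0) (h : ∀ a, T (V a) = d • a) :
    ∃ F : Set A, F.Finite ∧ ∀ a, ∃ u, a + T u ∈ F := by
  let P : Submodule ℤ A := LinearMap.range T.toIntLinearMap
  have htors : Module.IsTorsion ℤ (A ⧸ P) := by
    intro x
    induction x using Submodule.Quotient.induction_on with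
    | H a =>
      refine ⟨⟨d, mem_nonZeroDivisors_of_ne_zero hd⟩, ?_⟩
      change d • Submodule.Quotient.mk (p := P) a = 0
      rw [← Submodule.Quotient.mk_smul, Submodule.Quotient.mk_eq_zero]
      exact ⟨V a, h a⟩
  have hfin : Finite (A ⧸ P) := Module.finite_of_fg_torsion _ htors
  refine ⟨Set.range (fun q : A ⧸ P => Quotient.out q), Set.finite_range _, ?_⟩
  intro a
  have h1 : Submodule.Quotient.mk (p := P) (Quotient.out (Submodule.Quotient.mk (p := P) a)) =
      Submodule.Quotient.mk (p := P) a := Quotient.out_eq _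
  rw [Submodule.Quotient.eq] at h1
  obtain ⟨u, hu⟩ := h1
  refine ⟨u, ⟨Submodule.Quotient.mk (p := P) a, ?_⟩⟩
  have h2 : T u = Quotient.out (Submodule.Quotient.mk (p := P) a) - a := hu
  rw [h2]
  simp

end Pool.Agent.Q24.TA
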