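import Pool.Agent.Q24.TA.Wedge
import Pool.Agent.Q24.TA.Heis

/-!
The group, its tame automorphism, and the eigenvalue of absolute value one of each automorphism.
-/

namespace Pool.Agent.Q24.TA

open Q4
open scoped commutatorElement

abbrev O := Q4 ℤ

/-- the cocycle -/
def bt : (O × O) →+ (O × O) →+ (O × W) :=
  AddMonoidHom.mk' (fun p => AddMonoidHom.mk' (fun q => (p.1 * q.2, wedge p.1 q.1)) (by
    intro q q'
    ext1
    · simp [mul_add]
    · simp [wedge_add_right])) (by
    intro p p'
    ext1 q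
    apply Prod.ext
    · simp [add_mul]
    · simp [wedge_add_left])

theorem bt_apply (p q : O × O) : bt p q = (p.1 * q.2, wedge p.1 q.1) := rfl

theorem om_fst (p q : O × O) : (Heis.om bt p q).1 = p.1 * q.2 - q.1 * p.2 := rfl

theorem om_snd (p q : O × O) : (Heis.om bt p q).2 = wedge p.1 q.1 + wedge p.1 q.1 := by
  change wedge p.1 q.1 - wedge q.1 p.1 = _
  rw [wedge_comm p.1 q.1, sub_neg_eq_add]

theorem nondeg (x : O × O) (h : ∀ y, bt x y = bt y x) : x = 0 := by
  have h1 := congrArg Prod.fst (h (0, 1))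
  have h2 := congrArg Prod.fst (h (1, 0))
  simp only [bt_apply] at h1 h2
  apply Prod.ext
  · simpa using h1
  · simpa using h2.symm

instance : Module.Finite ℤ O := by
  let f : (Fin 4 → ℤ) →+ O :=
    { toFun := ofVec
      map_zero' := rfl
      map_add' := fun _ _ => rfl }
  apply Module.Finite.of_surjective f.toIntLinearMap
  intro p
  refine ⟨vec p, ?_⟩
  apply vec_inj
  exact vec_ofVec _

instance : AddGroup.FG O := Module.Finite.iff_addGroup_fg.1 inferInstance
instance : AddGroup.FG W := Module.Finite.iff_addGroup_fg.1 inferInstance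

theorem zsmul_eq (k : ℤ) (p : O) : k • p = Q4.C k * p := by
  ext
  · rw [C_mul_a, zsmul_a]; rfl
  · rw [C_mul_b, zsmul_b]; rfl
  · rw [C_mul_c, zsmul_c]; rfl
  · rw [C_mul_d, zsmul_d]; rfl

theorem O_torsionFree (x : O) (n : ℕ) (hn : 0 < n) (h : n • x = 0) : x = 0 := by
  have h1 : (n : ℤ) • x = 0 := by rw [natCast_zsmul]; exact h
  rw [zsmul_eq] at h1
  rcases mul_eq_zero.1 h1 with h2 | h2
  · exfalso
    have := C_inj (h2.trans (map_zero Q4.C).symm)
    omega
  · exact h2

theorem W_torsionFree (x : W) (n : ℕ) (hn : 0 < n) (h : n • x = 0) : x = 0 := by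
  ext i
  have h1 := congrFun h i
  simp at h1
  rcases h1 with h1 | h1
  · omega
  · exact h1

/-- the inverse of the generator -/
def ai : O := -(al * al * al) - 1

theorem al_ai : (al : O) * ai = 1 := by
  have := al_rel (R := ℤ)
  rw [ai]
  linear_combination -this

/-- the tame automorphism -/
def phi : Heis bt ≃* Heis bt where
  toFun p := ⟨(al * p.x.1, al * p.x.2), (al * al * p.z.1, Ym.mulVec p.z.2)⟩
  invFun p := ⟨(ai * p.x.1, ai * p.x.2), (ai * ai * p.z.1, Yi.mulVec p.z.2)⟩
  left_inv p := by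
    have h := al_ai
    ext1
    · apply Prod.ext
      · change ai * (al * p.x.1) = p.x.1
        linear_combination p.x.1 * h
      · change ai * (al * p.x.2) = p.x.2
        linear_combination p.x.2 * h
    · apply Prod.ext
      · change ai * ai * (al * al * p.z.1) = p.z.1
        linear_combination (p.z.1 * (al * ai) + p.z.1) * h
      · change Yi.mulVec (Ym.mulVec p.z.2) = p.z.2
        rw [Matrix.mulVec_mulVec, Yi_Ym, Matrix.one_mulVec]
  right_inv p := by
    have h := al_ai
    ext1
    · apply Prod.ext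
      · change al * (ai * p.x.1) = p.x.1
        linear_combination p.x.1 * h
      · change al * (ai * p.x.2) = p.x.2
        linear_combination p.x.2 * h
    · apply Prod.ext
      · change al * al * (ai * ai * p.z.1) = p.z.1
        linear_combination (p.z.1 * (al * ai) + p.z.1) * h
      · change Ym.mulVec (Yi.mulVec p.z.2) = p.z.2
        rw [Matrix.mulVec_mulVec, Ym_Yi, Matrix.one_mulVec]
  map_mul' p q := by
    ext1
    · apply Prod.ext
      · change al * (p.x.1 + q.x.1) = al * p.x.1 + al * q.x.1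
        ring
      · change al * (p.x.2 + q.x.2) = al * p.x.2 + al * q.x.2
        ring
    · apply Prod.ext
      · change al * al * (p.z.1 + q.z.1 + p.x.1 * q.x.2) =
          al * al * p.z.1 + al * al * q.z.1 + al * p.x.1 * (al * q.x.2)
        ring
      · change Ym.mulVec (p.z.2 + q.z.2 + wedge p.x.1 q.x.1) =
          Ym.mulVec p.z.2 + Ym.mulVec q.z.2 + wedge (al * p.x.1) (al * q.x.1)
        rw [Matrix.mulVec_add, Matrix.mulVec_add, wedge_al]

theorem phi_pow (n : ℕ) (p : Heis bt) : ((phi : MulAut (Heis bt)) ^ n) p =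
    ⟨(al ^ n * p.x.1, al ^ n * p.x.2), (al ^ (2 * n) * p.z.1, (Ym ^ n).mulVec p.z.2)⟩ := by
  induction n with
  | zero =>
    ext1
    · apply Prod.ext <;> simp
    · apply Prod.ext <;> simp
  | succ n ih =>
    rw [pow_succ', MulAut.mul_apply, ih]
    ext1
    · apply Prod.ext
      · change al * (al ^ n * p.x.1) = al ^ (n + 1) * p.x.1
        ring
      · change al * (al ^ n * p.x.2) = al ^ (n + 1) * p.x.2
        ring
    · apply Prod.ext
      · change al * al * (al ^ (2 * n) * p.z.1) = al ^ (2 * (n + 1)) * p.z.1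
        ring
      · change Ym.mulVec ((Ym ^ n).mulVec p.z.2) = (Ym ^ (n + 1)).mulVec p.z.2
        rw [Matrix.mulVec_mulVec, ← pow_succ']

theorem O_reps {c : O} (hc : 1 - c ≠ 0) : ∃ F : Set O, F.Finite ∧ ∀ x, ∃ u, x + (u - c * u) ∈ F := by
  have h := fin_reps (AddMonoidHom.mulLeft (1 - c)) (fun a => adj (1 - c) * a) (N (1 - c))
    (N_ne_zero hc) (by
      intro a
      change (1 - c) * (adj (1 - c) * a) = _
      rw [zsmul_eq, ← adj_mul]; ring)
  obtain ⟨F, hF, h⟩ := h
  refine ⟨F, hF, ?_⟩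
  intro x
  obtain ⟨u, hu⟩ := h x
  refine ⟨u, ?_⟩
  have : u - c * u = AddMonoidHom.mulLeft (1 - c) u := by
    change _ = (1 - c) * u
    ring
  rw [this]
  exact hu

theorem W_reps {n : ℕ} (hn : 0 < n) :
    ∃ F : Set W, F.Finite ∧ ∀ x, ∃ u, x + (u - (Ym ^ n).mulVec u) ∈ F := by
  have h := fin_reps ((1 - Ym ^ n).mulVecLin.toAddMonoidHom)
    (fun a => ((1 - Ym ^ n).adjugate).mulVec a) (1 - Ym ^ n).det (det_ne_zero hn) (by
      intro a
      change (1 - Ym ^ n).mulVec (((1 - Ym ^ n).adjugate).mulVec a) = _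
      rw [Matrix.mulVec_mulVec, Matrix.mul_adjugate, Matrix.smul_mulVec, Matrix.one_mulVec])
  obtain ⟨F, hF, h⟩ := h
  refine ⟨F, hF, ?_⟩
  intro x
  obtain ⟨u, hu⟩ := h x
  refine ⟨u, ?_⟩
  have : u - (Ym ^ n).mulVec u = (1 - Ym ^ n).mulVecLin.toAddMonoidHom u := by
    change _ = (1 - Ym ^ n).mulVec u
    rw [Matrix.sub_mulVec, Matrix.one_mulVec]
  rw [this]
  exact hu

theorem prod_reps {A B : Type} [AddCommGroup A] [AddCommGroup B] (g : A → A) (G : B → B)
    (h1 : ∃ F : Set A, F.Finite ∧ ∀ x, ∃ u, x + (u - g u) ∈ F)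
    (h2 : ∃ F : Set B, F.Finite ∧ ∀ x, ∃ u, x + (u - G u) ∈ F) :
    ∃ F : Set (A × B), F.Finite ∧ ∀ x, ∃ u, x + (u - ((g u.1, G u.2) : A × B)) ∈ F := by
  obtain ⟨F1, hf1, h1⟩ := h1
  obtain ⟨F2, hf2, h2⟩ := h2
  refine ⟨F1 ×ˢ F2, hf1.prod hf2, ?_⟩
  intro x
  obtain ⟨u, hu⟩ := h1 x.1
  obtain ⟨t, ht⟩ := h2 x.2
  exact ⟨(u, t), hu, ht⟩

theorem phi_tame {n : ℕ} (hn : 0 < n) :
    ∃ S : Set (Heis bt), S.Finite ∧ ∀ y, ∃ x ∈ S, ∃ h,
      x = h * y * (((phi : MulAut (Heis bt)) ^ n) h)⁻¹ := by
  apply Heis.finite_classes ((phi : MulAut (Heis bt)) ^ n)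
    (fun x => (al ^ n * x.1, al ^ n * x.2))
    (fun z => (al ^ (2 * n) * z.1, (Ym ^ n).mulVec z.2))
  · apply Prod.ext <;> simp
  · exact fun p => phi_pow n p
  · exact prod_reps (fun u => al ^ n * u) (fun u => al ^ n * u) (O_reps (al_pow_ne_one hn))
      (O_reps (al_pow_ne_one hn))
  · exact prod_reps (fun u => al ^ (2 * n) * u) (fun u => (Ym ^ n).mulVec u)
      (O_reps (al_pow_ne_one (by omega))) (W_reps hn)

/-! ### Arbitrary automorphisms -/

theorem C_natCast_ne {k : ℤ} (hk : k ≠ 0) : (Q4.C k : O) ≠ 0 := by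
  intro h
  exact hk (C_inj (h.trans (map_zero Q4.C).symm))

section ind

variable (g : (O × O) →+ (O × O)) (G : (O × W) →+ (O × W)) (hgi : Function.Injective g)
  (hgs : Function.Surjective g) (hGi : Function.Injective G)
  (hom : ∀ x y, G (Heis.om bt x y) = Heis.om bt (g x) (g y))

include hgi hom in
theorem step1 : (g (0, 1)).1 = 0 := by
  by_contra hp
  have h1 : Heis.om bt (g (0, 1)) (g (0, al)) = 0 := by
    rw [← hom]
    have : Heis.om bt ((0, 1) : O × O) (0, al) = 0 := by
      apply Prod.ext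
      · rw [om_fst]; simp
      · rw [om_snd, wedge_zero_left]; simp
    rw [this, map_zero]
  have h2 := congrArg Prod.fst h1
  have h3 := congrArg Prod.snd h1
  rw [om_fst] at h2
  rw [om_snd] at h3
  have h4 : wedge (g (0, 1)).1 (g (0, al)).1 = 0 := by
    ext i
    have := congrFun h3 i
    simp at this
    simpa using this
  obtain ⟨k, l, hk, hkl⟩ := wedge_eq_zero hp h4
  have h2' : (g (0, 1)).1 * (g (0, al)).2 - (g (0, al)).1 * (g (0, 1)).2 = 0 := h2
  have h5 : (g (0, 1)).1 * (Q4.C k * (g (0, al)).2 - Q4.C l * (g (0, 1)).2) = 0 := by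
    linear_combination Q4.C k * h2' + (g (0, 1)).2 * hkl
  have h6 := (mul_eq_zero.1 h5).resolve_left hp
  have h7 : g (k • (0, al)) = g (l • (0, 1)) := by
    rw [map_zsmul, map_zsmul]
    apply Prod.ext
    · rw [Prod.smul_fst, Prod.smul_fst, zsmul_eq, zsmul_eq, hkl]
    · rw [Prod.smul_snd, Prod.smul_snd, zsmul_eq, zsmul_eq]
      exact sub_eq_zero.1 h6
  have h8 := hgi h7
  have h9 : (k • (al : O)).b = (l • (1 : O)).b := congrArg (fun q : O × O => q.2.b) h8
  rw [zsmul_b, zsmul_b, al_b, one_b, smul_zero, smul_eq_mul, mul_one] at h9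
  exact hk h9

include hgi hom in
theorem step2 (y : O) : (g (0, y)).1 = 0 := by
  have h1 := step1 g G hgi hom
  have h2 : Heis.om bt (g (0, 1)) (g (0, y)) = 0 := by
    rw [← hom]
    have : Heis.om bt ((0, 1) : O × O) (0, y) = 0 := by
      apply Prod.ext
      · rw [om_fst]; simp
      · rw [om_snd, wedge_zero_left]; simp
    rw [this, map_zero]
  have h3 := congrArg Prod.fst h2
  rw [om_fst, h1, zero_mul, zero_sub] at h3
  have h4 : (g (0, y)).1 * (g (0, 1)).2 = 0 := by
    have : -((g (0, y)).1 * (g (0, 1)).2) = 0 := h3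
    linear_combination -this
  refine (mul_eq_zero.1 h4).resolve_right ?_
  intro h5
  have h6 : g (0, 1) = g 0 := by
    rw [map_zero]
    exact Prod.ext h1 h5
  have h7 := congrArg Prod.snd (hgi h6)
  exact one_ne_zero h7

include hgi hgs hGi hom in
/-- `g` acts on the first coordinate as multiplication by a unit. -/
theorem exists_unit : ∃ a a' : O, a * a' = 1 ∧ ∀ p : O × O, (g p).1 = a * p.1 := by
  have h0 := step2 g G hgi hom
  -- first coordinate only depends on the first coordinate
  have hfst : ∀ p : O × O, (g p).1 = (g (p.1, 0)).1 := by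
    intro p
    have : p = (p.1, 0) + (0, p.2) := by ext1 <;> simp
    rw [this, map_add, Prod.fst_add, h0, add_zero]
    simp
  have hG : ∀ x y : O, (G (x * y, 0)).1 = (g (x, 0)).1 * (g (0, y)).2 := by
    intro x y
    have h1 : Heis.om bt (x, 0) (0, y) = (x * y, 0) := by
      apply Prod.ext
      · rw [om_fst]; simp
      · rw [om_snd, wedge_comm, wedge_zero_left]; simp
    rw [← h1, hom, om_fst, h0, zero_mul, sub_zero]
  have hG2 : ∀ x : O, (G (x, 0)).2 = 0 := by
    intro x
    have h1 : Heis.om bt (x, 0) (0, 1) = (x, 0) := by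
      apply Prod.ext
      · rw [om_fst]; simp
      · rw [om_snd, wedge_comm, wedge_zero_left]; simp
    rw [← h1, hom, om_snd, h0, wedge_comm, wedge_zero_left]; simp
  let G0 : O →+ O :=
    { toFun := fun x => (G (x, 0)).1
      map_zero' := by
        have : ((0, 0) : O × W) = 0 := rfl
        rw [this, map_zero]; rfl
      map_add' := by
        intro x y
        have : ((x + y, 0) : O × W) = (x, 0) + (y, 0) := by ext1 <;> simp
        rw [this, map_add]; rfl }
  have hG0 : ∀ x y : O, G0 (x * y) = (g (x, 0)).1 * (g (0, y)).2 := hG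
  set a := (g (1, 0)).1 with ha
  set b := (g (0, 1)).2 with hb
  set m := G0 1 with hm
  have hmab : m = a * b := by rw [hm, ← mul_one (1 : O), hG0]
  have hm0 : m ≠ 0 := by
    intro h
    have h1 : G (1, 0) = G 0 := by
      rw [map_zero]
      exact Prod.ext h (hG2 1)
    have h2 := congrArg Prod.fst (hGi h1)
    exact one_ne_zero h2
  have hx : ∀ x, G0 x = (g (x, 0)).1 * b := by
    intro x
    rw [hb, ← hG0, mul_one]
  have hy : ∀ y, G0 y = a * (g (0, y)).2 := by
    intro y
    rw [ha, ← hG0, one_mul]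
  have hmul : ∀ x y, m * G0 (x * y) = G0 x * G0 y := by
    intro x y
    rw [hx x, hy y, hG0, hmab]; ring
  set c := G0 al with hc
  have hc2 : c * c = m * G0 (al * al) := (hmul al al).symm
  have hc3 : c * c * c = m * m * G0 (al * al * al) := by
    rw [hc2, mul_assoc, mul_comm (G0 (al * al)) c, mul_comm c]
    rw [← hmul]; ring
  have hc4 : c * c * c * c = m * m * m * G0 (al * al * al * al) := by
    have h5 := hmul (al * al * al) al
    rw [← hc] at h5
    rw [hc3]
    linear_combination (-(m * m)) * h5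
  have hrel : (al : O) * al * al * al = -al - 1 := by
    linear_combination al_rel (R := ℤ)
  rw [hrel, map_sub, map_neg, ← hc, ← hm] at hc4
  have hcm : c = al * m := root_unique hm0 (by linear_combination hc4)
  have hal : ∀ x, G0 (al * x) = al * G0 x := by
    intro x
    apply mul_left_cancel₀ hm0
    rw [hmul, ← hc, hcm]; ring
  have hall : ∀ x, G0 x = x * m := by
    intro x
    have hz : ∀ k : ℤ, G0 (Q4.C k) = Q4.C k * m := by
      intro k
      have : (Q4.C k : O) = k • (1 : O) := by rw [zsmul_eq, mul_one]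
      rw [this, map_zsmul, ← hm, zsmul_eq, zsmul_eq, mul_one]
    have e : x = Q4.C x.a + al * (Q4.C x.b) + al * (al * Q4.C x.c) + al * (al * (al * Q4.C x.d)) := by
      have := ext_map x
      linear_combination this
    rw [e]
    simp only [map_add, hal, hz]
    ring
  have hb0 : b ≠ 0 := by
    intro h
    apply hm0
    rw [hmab, h, mul_zero]
  have hg1 : ∀ x, (g (x, 0)).1 = a * x := by
    intro x
    apply mul_right_cancel₀ hb0
    rw [← hx, hall, hmab]; ring
  obtain ⟨q, hq⟩ := hgs (1, 0)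
  refine ⟨a, q.1, ?_, ?_⟩
  · rw [← hg1, ← hfst, hq]
  · intro p
    rw [hfst, hg1]

end ind

/-- Every automorphism has an eigenvalue of absolute value one on the commutator subgroup. -/
theorem exists_eigenvalue (ψ : Heis bt ≃* Heis bt) :
    ∃ (l : Heis bt → ℂ) (c : ℂ), ‖c‖ = 1 ∧ (∀ b, b ∈ commutator (Heis bt) ↔ ψ b ∈ commutator (Heis bt)) ∧
      (∀ a ∈ commutator (Heis bt), ∀ b ∈ commutator (Heis bt), l (a * b) = l a + l b) ∧
      (∃ b ∈ commutator (Heis bt), l b ≠ 0) ∧ ∀ b ∈ commutator (Heis bt), l (ψ b) = c * l b := by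
  obtain ⟨g, G, hg, hG, hgi, hgs, hGi, hom⟩ := Heis.exists_induced ψ nondeg
  obtain ⟨a, a', haa, hga⟩ := exists_unit g G hgi hgs hGi hom
  obtain ⟨v, z1, z2, hv, h1, h2, -, -, i1, i2, r1, r2⟩ := exists_roots
  have hcomm : commutator (Heis bt) = Subgroup.closure {p | ∃ q r : Heis bt, ⁅q, r⁆ = p} := by
    exact commutator_eq_closure _
  have hx0 : ∀ b ∈ commutator (Heis bt), b.x = 0 := by
    intro b hb
    have h3 : commutator (Heis bt) ≤ (Heis.toX bt).ker := by
      rw [hcomm, Subgroup.closure_le]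
      rintro p ⟨q, r, rfl⟩
      rw [Heis.commutator_eq]
      rfl
    exact Multiplicative.ofAdd.injective (h3 hb)
  have key : ∀ q r : Heis bt, Lf z1 z2 (⁅q, r⁆ : Heis bt).z.2 =
      2 * (sg z1 h1 q.x.1 * sg z2 h2 r.x.1 - sg z1 h1 r.x.1 * sg z2 h2 q.x.1) := by
    intro q r
    rw [Heis.commutator_eq, om_snd, map_add, Lf_wedge h1 h2]
    ring
  refine ⟨fun p => Lf z1 z2 p.z.2, sg z1 h1 a * sg z2 h2 a, norm_one h1 h2 i1 i2 r1 r2 haa, ?_, ?_,
    ?_, ?_⟩
  · intro b
    have h3 := (inferInstance : (commutator (Heis bt)).Characteristic).fixed ψ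
    constructor
    · intro hb
      rw [← h3] at hb
      exact hb
    · intro hb
      rw [← h3]
      exact hb
  · intro p hp q hq
    have e : (p * q).z.2 = p.z.2 + q.z.2 := by
      change p.z.2 + q.z.2 + wedge p.x.1 q.x.1 = _
      rw [hx0 p hp]
      change p.z.2 + q.z.2 + wedge 0 q.x.1 = _
      rw [wedge_zero_left, add_zero]
    change Lf z1 z2 (p * q).z.2 = _
    rw [e, map_add]
  · refine ⟨⁅(⟨(1, 0), 0⟩ : Heis bt), ⟨(al, 0), 0⟩⁆, ?_, ?_⟩
    · exact Subgroup.commutator_mem_commutator (Subgroup.mem_top _) (Subgroup.mem_top _)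
    · beta_reduce
      rw [key]
      simp only [map_one, sg_al]
      intro h
      have h3 : z2 = z1 := by linear_combination (1 / 2) * h
      rw [h3] at r2
      linarith
  · intro b hb
    let K : Subgroup (Heis bt) :=
      { carrier := {p | p.x = 0 ∧ Lf z1 z2 (ψ p).z.2 = sg z1 h1 a * sg z2 h2 a * Lf z1 z2 p.z.2}
        one_mem' := by
          refine ⟨rfl, ?_⟩
          rw [map_one]
          change Lf z1 z2 0 = _ * Lf z1 z2 0
          rw [map_zero, mul_zero]
        mul_mem' := by
          rintro p q ⟨hp, hp'⟩ ⟨hq, hq'⟩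
          refine ⟨by rw [Heis.mul_x, hp, hq, add_zero], ?_⟩
          have e1 : (p * q).z.2 = p.z.2 + q.z.2 := by
            change p.z.2 + q.z.2 + wedge p.x.1 q.x.1 = _
            rw [hp]
            change p.z.2 + q.z.2 + wedge 0 q.x.1 = _
            rw [wedge_zero_left, add_zero]
          have e2 : (ψ p * ψ q).z.2 = (ψ p).z.2 + (ψ q).z.2 := by
            change (ψ p).z.2 + (ψ q).z.2 + wedge (ψ p).x.1 (ψ q).x.1 = _
            rw [hg p, hp, map_zero]
            change (ψ p).z.2 + (ψ q).z.2 + wedge 0 (ψ q).x.1 = _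
            rw [wedge_zero_left, add_zero]
          rw [map_mul, e1, e2, map_add, map_add, hp', hq']
          ring
        inv_mem' := by
          rintro p ⟨hp, hp'⟩
          refine ⟨by rw [Heis.inv_x, hp, neg_zero], ?_⟩
          have e1 : (p⁻¹).z.2 = - p.z.2 := by
            change -p.z.2 + wedge p.x.1 p.x.1 = _
            rw [hp]
            change -p.z.2 + wedge 0 0 = _
            rw [wedge_zero_left, add_zero]
          have e2 : ((ψ p)⁻¹).z.2 = - (ψ p).z.2 := by
            change -(ψ p).z.2 + wedge (ψ p).x.1 (ψ p).x.1 = _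
            rw [hg p, hp, map_zero]
            change -(ψ p).z.2 + wedge 0 0 = _
            rw [wedge_zero_left, add_zero]
          rw [map_inv, e1, e2, map_neg, map_neg, hp']
          ring }
    have hK : commutator (Heis bt) ≤ K := by
      rw [hcomm, Subgroup.closure_le]
      rintro p ⟨q, r, rfl⟩
      refine ⟨by rw [Heis.commutator_eq], ?_⟩
      rw [map_commutatorElement, key, key, hg, hg, hga, hga,
        map_mul, map_mul, map_mul, map_mul]
      ring
    exact (hK hb).2

end Pool.Agent.Q24.TA
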