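import Pool.Agent.Q24.TA.Ring

/-!
Norms in `O = ℤ[x]/(x^4+x+1)`; nonzero elements divide nonzero integers; the only root of the
polynomial in the field of fractions is the generator.
-/

namespace Pool.Agent.Q24.TA

namespace Q4

variable {R : Type} [CommRing R]

/-- coordinate vector -/
def vec (p : Q4 R) : Fin 4 → R := ![p.a, p.b, p.c, p.d]

/-- inverse of `vec` -/
def ofVec (v : Fin 4 → R) : Q4 R := ⟨v 0, v 1, v 2, v 3⟩

omit [CommRing R] in
theorem vec_ofVec (v : Fin 4 → R) : vec (ofVec v) = v := by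
  ext i; fin_cases i <;> rfl

omit [CommRing R] in
theorem vec_inj {p q : Q4 R} (h : vec p = vec q) : p = q := by
  have h0 := congrFun h 0
  have h1 := congrFun h 1
  have h2 := congrFun h 2
  have h3 := congrFun h 3
  ext
  · exact h0
  · exact h1
  · exact h2
  · exact h3

/-- regular representation (rows are the coordinates of `p`, `α p`, `α² p`, `α³ p`) -/
def M (p : Q4 R) : Matrix (Fin 4) (Fin 4) R :=
  Matrix.of ![vec p, vec (p * al), vec (p * al * al), vec (p * al * al * al)]

theorem vec_mul (q p : Q4 R) : vec (q * p) = Matrix.vecMul (vec q) (M p) := by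
  ext j
  fin_cases j <;>
  simp [M, vec, Matrix.vecMul, dotProduct, Fin.sum_univ_four] <;> ring

theorem M_mul (p q : Q4 R) : M (p * q) = M p * M q := by
  ext i j
  fin_cases i <;> fin_cases j <;>
  simp [M, vec, Matrix.mul_apply, Fin.sum_univ_four] <;> ring

theorem M_one : M (1 : Q4 R) = 1 := by
  ext i j
  fin_cases i <;> fin_cases j <;>
  simp [M, vec]

theorem M_add (p q : Q4 R) : M (p + q) = M p + M q := by
  ext i j
  fin_cases i <;> fin_cases j <;>
  simp [M, vec] <;> ring

theorem M_C_mul (r : R) (p : Q4 R) : M (C r * p) = r • M p := by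
  ext i j
  fin_cases i <;> fin_cases j <;>
  simp [M, vec] <;> ring

theorem M_map {S : Type} [CommRing S] (f : R →+* S) (p : Q4 R) :
    M (map f p) = (M p).map f := by
  ext i j
  fin_cases i <;> fin_cases j <;>
  simp [M, vec]

/-- the norm -/
def N (p : Q4 R) : R := (M p).det

theorem N_mul (p q : Q4 R) : N (p * q) = N p * N q := by
  rw [N, M_mul, Matrix.det_mul]; rfl

theorem N_one : N (1 : Q4 R) = 1 := by
  rw [N, M_one, Matrix.det_one]

theorem N_C_mul (r : R) (p : Q4 R) : N (C r * p) = r ^ 4 * N p := by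
  rw [N, M_C_mul, Matrix.det_smul]; rfl

theorem N_map {S : Type} [CommRing S] (f : R →+* S) (p : Q4 R) :
    N (map f p) = f (N p) := by
  rw [N, M_map, N, RingHom.map_det]; rfl

/-- the cofactor element -/
def adj (p : Q4 R) : Q4 R := ofVec (Matrix.vecMul (vec 1) (Matrix.adjugate (M p)))

theorem adj_mul (p : Q4 R) : adj p * p = C (N p) := by
  apply vec_inj
  rw [vec_mul, adj, vec_ofVec, Matrix.vecMul_vecMul, Matrix.adjugate_mul]
  ext j
  fin_cases j <;> simp [vec, Matrix.vecMul, dotProduct, Fin.sum_univ_four, N, C]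

theorem two_inv : ∀ a b c d : ZMod 2, ¬ (a = 0 ∧ b = 0 ∧ c = 0 ∧ d = 0) →
    ∃ a' b' c' d' : ZMod 2, (⟨a, b, c, d⟩ : Q4 (ZMod 2)) * ⟨a', b', c', d'⟩ = 1 := by
  decide +kernel

theorem three_red : ∀ a b c d : ZMod 3,
    (⟨a, b, c, d⟩ : Q4 (ZMod 3)) * ⟨a, b, c, d⟩ * ⟨a, b, c, d⟩ = 0 →
    (a = 0 ∧ b = 0 ∧ c = 0 ∧ d = 0) := by
  decide +kernel

theorem three_root : ∀ t n : ZMod 3, t * t * t + t * t * n + t * n * n + 2 * (n * n * n) = 0 →
    n = 0 := by
  decide +kernel

theorem dvd_of_cast (p : ℕ) {k : ℤ} (h : Int.castRingHom (ZMod p) k = 0) : (p : ℤ) ∣ k := by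
  have : ((k : ℤ) : ZMod p) = 0 := h
  exact (ZMod.intCast_zmod_eq_zero_iff_dvd k p).1 this

theorem C_mul_a (r : R) (p : Q4 R) : (C r * p).a = r * p.a := by
  simp only [mul_a, C_a, C_b, C_c, C_d]; ring
theorem C_mul_b (r : R) (p : Q4 R) : (C r * p).b = r * p.b := by
  simp only [mul_b, C_a, C_b, C_c, C_d]; ring
theorem C_mul_c (r : R) (p : Q4 R) : (C r * p).c = r * p.c := by
  simp only [mul_c, C_a, C_b, C_c, C_d]; ring
theorem C_mul_d (r : R) (p : Q4 R) : (C r * p).d = r * p.d := by
  simp only [mul_d, C_a, C_b, C_c, C_d]; ring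

theorem exists_C_mul (p : ℕ) (x : Q4 ℤ) (h : map (Int.castRingHom (ZMod p)) x = 0) :
    ∃ y : Q4 ℤ, x = C (p : ℤ) * y := by
  have ha : Int.castRingHom (ZMod p) x.a = 0 := congrArg Q4.a h
  have hb : Int.castRingHom (ZMod p) x.b = 0 := congrArg Q4.b h
  have hc : Int.castRingHom (ZMod p) x.c = 0 := congrArg Q4.c h
  have hd : Int.castRingHom (ZMod p) x.d = 0 := congrArg Q4.d h
  obtain ⟨a, ha⟩ := dvd_of_cast p ha
  obtain ⟨b, hb⟩ := dvd_of_cast p hb
  obtain ⟨c, hc⟩ := dvd_of_cast p hc
  obtain ⟨d, hd⟩ := dvd_of_cast p hd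
  refine ⟨⟨a, b, c, d⟩, ?_⟩
  ext
  · rw [C_mul_a, ha]
  · rw [C_mul_b, hb]
  · rw [C_mul_c, hc]
  · rw [C_mul_d, hd]

theorem N_ne_zero_aux : ∀ (k : ℕ) (x : Q4 ℤ),
    x.a.natAbs + x.b.natAbs + x.c.natAbs + x.d.natAbs ≤ k → x ≠ 0 → N x ≠ 0 := by
  intro k
  induction k with
  | zero =>
    intro x hx h0
    exfalso
    apply h0
    ext <;> simp <;> omega
  | succ k ih =>
    intro x hx h0
    by_cases h2 : map (Int.castRingHom (ZMod 2)) x = 0
    · obtain ⟨y, hy⟩ := exists_C_mul 2 x h2
      have hy0 : y ≠ 0 := by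
        rintro rfl
        apply h0
        rw [hy, mul_zero]
      rw [hy, N_C_mul]
      apply mul_ne_zero (by norm_num)
      apply ih y _ hy0
      have ha : x.a = 2 * y.a := by rw [hy, C_mul_a]; rfl
      have hb : x.b = 2 * y.b := by rw [hy, C_mul_b]; rfl
      have hc : x.c = 2 * y.c := by rw [hy, C_mul_c]; rfl
      have hd : x.d = 2 * y.d := by rw [hy, C_mul_d]; rfl
      have hy1 : ¬ (y.a = 0 ∧ y.b = 0 ∧ y.c = 0 ∧ y.d = 0) := by
        rintro ⟨h1, h2, h3, h4⟩
        apply hy0
        ext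
        · exact h1
        · exact h2
        · exact h3
        · exact h4
      omega
    · intro hN
      have := N_map (Int.castRingHom (ZMod 2)) x
      rw [hN, map_zero] at this
      have hx2 : ¬ ((map (Int.castRingHom (ZMod 2)) x).a = 0 ∧ (map (Int.castRingHom (ZMod 2)) x).b = 0
        ∧ (map (Int.castRingHom (ZMod 2)) x).c = 0 ∧ (map (Int.castRingHom (ZMod 2)) x).d = 0) := by
        rintro ⟨h1, h2', h3, h4⟩
        apply h2
        ext
        · exact h1
        · exact h2'
        · exact h3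
        · exact h4
      obtain ⟨a', b', c', d', h⟩ := two_inv _ _ _ _ hx2
      have h' : map (Int.castRingHom (ZMod 2)) x * ⟨a', b', c', d'⟩ = 1 := h
      have h3 := congrArg N h'
      rw [N_mul, N_one, this, zero_mul] at h3
      exact absurd h3 (by decide)

theorem N_ne_zero {x : Q4 ℤ} (h : x ≠ 0) : N x ≠ 0 := N_ne_zero_aux _ x le_rfl h

theorem C_inj {r s : R} (h : (C r : Q4 R) = C s) : r = s := congrArg Q4.a h

instance : Nontrivial (Q4 ℤ) := ⟨0, 1, by
  intro h
  have := congrArg Q4.a h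
  simp at this⟩

instance : NoZeroDivisors (Q4 ℤ) where
  eq_zero_or_eq_zero_of_mul_eq_zero := by
    intro p q h
    by_contra hne
    push Not at hne
    have h1 := N_ne_zero hne.1
    have h2 := N_ne_zero hne.2
    have h3 : N (p * q) = 0 := by
      rw [h]
      have h4 : (0 : Q4 ℤ) = C 0 * 0 := by simp
      rw [h4, N_C_mul]
      simp
    rw [N_mul] at h3
    exact mul_ne_zero h1 h2 h3

instance : IsDomain (Q4 ℤ) := NoZeroDivisors.to_isDomain _

theorem three_dvd {c : Q4 ℤ} {u : Q4 ℤ} (h : c * c * c = C 3 * u) : ∃ c' : Q4 ℤ, c = C 3 * c' := by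
  apply exists_C_mul 3 c
  have h1 := congrArg (map (Int.castRingHom (ZMod 3))) h
  rw [map_mul, map_mul, map_mul] at h1
  have h2 : map (Int.castRingHom (ZMod 3)) (C (3 : ℤ)) = 0 := by
    ext <;> simp <;> decide
  rw [h2, zero_mul] at h1
  obtain ⟨ha, hb, hc, hd⟩ := three_red _ _ _ _ h1
  ext
  · exact ha
  · exact hb
  · exact hc
  · exact hd

/-- the point `α ↦ 1` modulo `3` -/
def pt : Q4 ℤ →+* ZMod 3 :=
  (ev (1 : ZMod 3) (by decide)).comp (map (Int.castRingHom (ZMod 3)))

theorem pt_al : pt al = 1 := by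
  rw [pt, RingHom.comp_apply]
  have : map (Int.castRingHom (ZMod 3)) al = al := by ext <;> simp
  rw [this, ev_al]

theorem pt_C (k : ℤ) : pt (C k) = (k : ZMod 3) := by
  simp [pt, ev_apply]

theorem cubic_aux : ∀ (k : ℕ) (n : ℤ) (c : Q4 ℤ), n.natAbs ≤ k →
    c * c * c + al * (c * c) * C n + al * al * c * (C n * C n)
      + (al * al * al + 1) * (C n * C n * C n) = 0 → n = 0 := by
  intro k
  induction k with
  | zero =>
    intro n c hn _
    omega
  | succ k ih =>
    intro n c hn h
    by_contra hn0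
    -- `3` divides `n`
    have h1 := congrArg pt h
    simp only [map_add, map_mul, map_zero, map_one, pt_al, pt_C] at h1
    have h2 : ((n : ℤ) : ZMod 3) = 0 := by
      apply three_root (pt c) ((n : ℤ) : ZMod 3)
      linear_combination h1
    have h3 : (3 : ℤ) ∣ n := (ZMod.intCast_zmod_eq_zero_iff_dvd n 3).1 h2
    obtain ⟨n', rfl⟩ := h3
    have hC : (C (3 * n') : Q4 ℤ) = C 3 * C n' := map_mul _ _ _
    rw [hC] at h
    obtain ⟨c', rfl⟩ : ∃ c' : Q4 ℤ, c = C 3 * c' := by
      apply three_dvd (u := -(al * (c * c) * C n' + al * al * c * (C 3 * C n' * C n')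
        + (al * al * al + 1) * (C n' * C n' * C n' * C 3 * C 3)))
      linear_combination h
    have h4 : C 3 * C 3 * C 3 * (c' * c' * c' + al * (c' * c') * C n' + al * al * c' * (C n' * C n')
      + (al * al * al + 1) * (C n' * C n' * C n')) = 0 := by
      linear_combination h
    have h5 : (C 3 : Q4 ℤ) ≠ 0 := by
      intro h
      have := congrArg Q4.a h
      rw [C_a, zero_a] at this
      norm_num at this
    have h6 := (mul_eq_zero.1 h4).resolve_left (mul_ne_zero (mul_ne_zero h5 h5) h5)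
    have h7 := ih n' c' (by omega) h6
    apply hn0
    rw [h7, mul_zero]

/-- The only root of `x^4+x+1` in the fraction field is the generator. -/
theorem root_unique {c m : Q4 ℤ} (hm : m ≠ 0)
    (h : c * c * c * c + c * (m * m * m) + m * m * m * m = 0) : c = al * m := by
  have hrel : (al : Q4 ℤ) * al * al * al + al + 1 = 0 := al_rel
  have hf : (c - al * m) * (c * c * c + al * (c * c) * m + al * al * c * (m * m)
      + (al * al * al + 1) * (m * m * m)) = 0 := by
    linear_combination h - m * m * m * m * hrel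
  rcases mul_eq_zero.1 hf with h1 | h1
  · exact sub_eq_zero.1 h1
  · exfalso
    set m' := adj m with hm'
    have hmm : m' * m = C (N m) := adj_mul m
    have h2 : (m' * c) * (m' * c) * (m' * c) + al * ((m' * c) * (m' * c)) * C (N m)
      + al * al * (m' * c) * (C (N m) * C (N m))
      + (al * al * al + 1) * (C (N m) * C (N m) * C (N m)) = 0 := by
      rw [← hmm]
      linear_combination (m' * m' * m') * h1
    exact N_ne_zero hm (cubic_aux _ _ _ le_rfl h2)

end Q4

end Pool.Agent.Q24.TA
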