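import Mathlib

/-!
The ring `O = R[x]/(x^4+x+1)` with explicit coordinates.
-/

namespace Pool.Agent.Q24.TA

@[ext]
structure Q4 (R : Type) where
  a : R
  b : R
  c : R
  d : R
deriving DecidableEq

namespace Q4

variable {R : Type} [CommRing R]

instance : Zero (Q4 R) := ⟨⟨0, 0, 0, 0⟩⟩
instance : One (Q4 R) := ⟨⟨1, 0, 0, 0⟩⟩
instance : Add (Q4 R) := ⟨fun p q => ⟨p.a + q.a, p.b + q.b, p.c + q.c, p.d + q.d⟩⟩
instance : Neg (Q4 R) := ⟨fun p => ⟨-p.a, -p.b, -p.c, -p.d⟩⟩
instance : Sub (Q4 R) := ⟨fun p q => ⟨p.a - q.a, p.b - q.b, p.c - q.c, p.d - q.d⟩⟩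
instance : Mul (Q4 R) := ⟨fun p q =>
  ⟨p.a * q.a - (p.b * q.d + p.c * q.c + p.d * q.b),
   p.a * q.b + p.b * q.a - (p.b * q.d + p.c * q.c + p.d * q.b) - (p.c * q.d + p.d * q.c),
   p.a * q.c + p.b * q.b + p.c * q.a - (p.c * q.d + p.d * q.c) - p.d * q.d,
   p.a * q.d + p.b * q.c + p.c * q.b + p.d * q.a - p.d * q.d⟩⟩

@[simp] theorem zero_a : (0 : Q4 R).a = 0 := rfl
@[simp] theorem zero_b : (0 : Q4 R).b = 0 := rfl
@[simp] theorem zero_c : (0 : Q4 R).c = 0 := rfl
@[simp] theorem zero_d : (0 : Q4 R).d = 0 := rfl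
@[simp] theorem one_a : (1 : Q4 R).a = 1 := rfl
@[simp] theorem one_b : (1 : Q4 R).b = 0 := rfl
@[simp] theorem one_c : (1 : Q4 R).c = 0 := rfl
@[simp] theorem one_d : (1 : Q4 R).d = 0 := rfl
@[simp] theorem add_a (p q : Q4 R) : (p + q).a = p.a + q.a := rfl
@[simp] theorem add_b (p q : Q4 R) : (p + q).b = p.b + q.b := rfl
@[simp] theorem add_c (p q : Q4 R) : (p + q).c = p.c + q.c := rfl
@[simp] theorem add_d (p q : Q4 R) : (p + q).d = p.d + q.d := rfl
@[simp] theorem sub_a (p q : Q4 R) : (p - q).a = p.a - q.a := rfl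
@[simp] theorem sub_b (p q : Q4 R) : (p - q).b = p.b - q.b := rfl
@[simp] theorem sub_c (p q : Q4 R) : (p - q).c = p.c - q.c := rfl
@[simp] theorem sub_d (p q : Q4 R) : (p - q).d = p.d - q.d := rfl
@[simp] theorem neg_a (p : Q4 R) : (-p).a = -p.a := rfl
@[simp] theorem neg_b (p : Q4 R) : (-p).b = -p.b := rfl
@[simp] theorem neg_c (p : Q4 R) : (-p).c = -p.c := rfl
@[simp] theorem neg_d (p : Q4 R) : (-p).d = -p.d := rfl
@[simp] theorem mul_a (p q : Q4 R) : (p * q).a =
  p.a * q.a - (p.b * q.d + p.c * q.c + p.d * q.b) := rfl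
@[simp] theorem mul_b (p q : Q4 R) : (p * q).b =
  p.a * q.b + p.b * q.a - (p.b * q.d + p.c * q.c + p.d * q.b) - (p.c * q.d + p.d * q.c) := rfl
@[simp] theorem mul_c (p q : Q4 R) : (p * q).c =
  p.a * q.c + p.b * q.b + p.c * q.a - (p.c * q.d + p.d * q.c) - p.d * q.d := rfl
@[simp] theorem mul_d (p q : Q4 R) : (p * q).d =
  p.a * q.d + p.b * q.c + p.c * q.b + p.d * q.a - p.d * q.d := rfl

instance : CommRing (Q4 R) where
  add_assoc p q r := by ext <;> simp [add_assoc]
  zero_add p := by ext <;> simp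
  add_zero p := by ext <;> simp
  add_comm p q := by ext <;> simp [add_comm]
  left_distrib p q r := by ext <;> simp <;> ring
  right_distrib p q r := by ext <;> simp <;> ring
  zero_mul p := by ext <;> simp
  mul_zero p := by ext <;> simp
  mul_assoc p q r := by ext <;> simp <;> ring
  one_mul p := by ext <;> simp
  mul_one p := by ext <;> simp
  mul_comm p q := by ext <;> simp <;> ring
  neg_add_cancel p := by ext <;> simp
  sub_eq_add_neg p q := by ext <;> simp [sub_eq_add_neg]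
  nsmul := nsmulRec
  zsmul := zsmulRec

/-- Coordinates as an additive map. -/
def coordHom (i : Fin 4) : Q4 R →+ R where
  toFun p := ![p.a, p.b, p.c, p.d] i
  map_zero' := by fin_cases i <;> rfl
  map_add' p q := by fin_cases i <;> rfl

@[simp] theorem zsmul_a (k : ℤ) (p : Q4 R) : (k • p).a = k • p.a := map_zsmul (coordHom 0) k p
@[simp] theorem zsmul_b (k : ℤ) (p : Q4 R) : (k • p).b = k • p.b := map_zsmul (coordHom 1) k p
@[simp] theorem zsmul_c (k : ℤ) (p : Q4 R) : (k • p).c = k • p.c := map_zsmul (coordHom 2) k p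
@[simp] theorem zsmul_d (k : ℤ) (p : Q4 R) : (k • p).d = k • p.d := map_zsmul (coordHom 3) k p

/-- the embedding of scalars -/
def C : R →+* Q4 R where
  toFun r := ⟨r, 0, 0, 0⟩
  map_one' := rfl
  map_zero' := rfl
  map_add' r s := by ext <;> simp
  map_mul' r s := by ext <;> simp

@[simp] theorem C_a (r : R) : (C r).a = r := rfl
@[simp] theorem C_b (r : R) : (C r).b = 0 := rfl
@[simp] theorem C_c (r : R) : (C r).c = 0 := rfl
@[simp] theorem C_d (r : R) : (C r).d = 0 := rfl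

/-- the generator -/
def al : Q4 R := ⟨0, 1, 0, 0⟩

@[simp] theorem al_a : (al : Q4 R).a = 0 := rfl
@[simp] theorem al_b : (al : Q4 R).b = 1 := rfl
@[simp] theorem al_c : (al : Q4 R).c = 0 := rfl
@[simp] theorem al_d : (al : Q4 R).d = 0 := rfl

theorem al_rel : (al : Q4 R) * al * al * al + al + 1 = 0 := by
  ext <;> simp

/-- change of scalars -/
def map {S : Type} [CommRing S] (f : R →+* S) : Q4 R →+* Q4 S where
  toFun p := ⟨f p.a, f p.b, f p.c, f p.d⟩
  map_one' := by ext <;> simp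
  map_zero' := by ext <;> simp
  map_add' p q := by ext <;> simp
  map_mul' p q := by ext <;> simp

@[simp] theorem map_a {S : Type} [CommRing S] (f : R →+* S) (p : Q4 R) : (map f p).a = f p.a := rfl
@[simp] theorem map_b {S : Type} [CommRing S] (f : R →+* S) (p : Q4 R) : (map f p).b = f p.b := rfl
@[simp] theorem map_c {S : Type} [CommRing S] (f : R →+* S) (p : Q4 R) : (map f p).c = f p.c := rfl
@[simp] theorem map_d {S : Type} [CommRing S] (f : R →+* S) (p : Q4 R) : (map f p).d = f p.d := rfl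

/-- evaluation at a root -/
def ev (t : R) (ht : t ^ 4 + t + 1 = 0) : Q4 R →+* R where
  toFun p := p.a + p.b * t + p.c * t ^ 2 + p.d * t ^ 3
  map_one' := by simp
  map_zero' := by simp
  map_add' p q := by simp; ring
  map_mul' p q := by
    simp
    linear_combination (-(p.b * q.d + p.c * q.c + p.d * q.b) - (p.c * q.d + p.d * q.c) * t
      - p.d * q.d * t ^ 2) * ht

theorem ev_apply (t : R) (ht : t ^ 4 + t + 1 = 0) (p : Q4 R) :
    ev t ht p = p.a + p.b * t + p.c * t ^ 2 + p.d * t ^ 3 := rfl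

theorem ev_al (t : R) (ht : t ^ 4 + t + 1 = 0) : ev t ht al = t := by simp [ev_apply]

theorem ext_map (p : Q4 R) : p = C p.a + C p.b * al + C p.c * (al * al) + C p.d * (al * al * al) := by
  ext <;> simp

end Q4

end Pool.Agent.Q24.TA
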