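import Pool.Agent.Q24.TA.Norm

/-!
The complex roots of `x^4+x+1` and the absolute value of `σ₁(a) σ₂(a)` for a unit `a`.
-/

namespace Pool.Agent.Q24.TA

open Q4 ComplexConjugate

namespace Q4

variable {R : Type} [CommRing R]

theorem M_mulVec (p : Q4 R) (t : R) (ht : t ^ 4 + t + 1 = 0) :
    Matrix.mulVec (M p) (fun j => t ^ (j : ℕ)) = fun i : Fin 4 => ev t ht p * t ^ (i : ℕ) := by
  have hv : ∀ q : Q4 R, dotProduct (vec q) (fun j : Fin 4 => t ^ (j : ℕ)) = ev t ht q := by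
    intro q
    simp [vec, dotProduct, Fin.sum_univ_four, ev_apply]
  have hal : ev t ht al = t := ev_al t ht
  ext i
  fin_cases i
  · change dotProduct (vec p) _ = _
    rw [hv]; simp
  · change dotProduct (vec (p * al)) _ = _
    rw [hv, map_mul, hal]; simp
  · change dotProduct (vec (p * al * al)) _ = _
    rw [hv, map_mul, map_mul, hal]; simp; ring
  · change dotProduct (vec (p * al * al * al)) _ = _
    rw [hv, map_mul, map_mul, map_mul, hal]; simp; ring

theorem N_eq_prod [IsDomain R] (p : Q4 R) (v : Fin 4 → R) (hv : Function.Injective v)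
    (hr : ∀ i, v i ^ 4 + v i + 1 = 0) : N p = ∏ i, ev (v i) (hr i) p := by
  have h1 : M p * (Matrix.vandermonde v).transpose =
      (Matrix.vandermonde v).transpose * Matrix.diagonal (fun i => ev (v i) (hr i) p) := by
    ext i k
    have h2 := congrFun (M_mulVec p (v k) (hr k)) i
    rw [Matrix.mul_diagonal]
    simp only [Matrix.transpose_apply, Matrix.vandermonde_apply]
    rw [mul_comm, ← h2]
    simp only [Matrix.mul_apply, Matrix.mulVec, dotProduct, Matrix.transpose_apply,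
      Matrix.vandermonde_apply]
  have h3 := congrArg Matrix.det h1
  rw [Matrix.det_mul, Matrix.det_mul, Matrix.det_diagonal, mul_comm, Matrix.det_transpose] at h3
  have h4 : (Matrix.vandermonde v).det ≠ 0 := Matrix.det_vandermonde_ne_zero_iff.2 hv
  exact mul_left_cancel₀ h4 h3

end Q4

theorem quad_root (p A : ℝ) :
    (⟨p / 2, A⟩ : ℂ) ^ 2 - (p : ℂ) * ⟨p / 2, A⟩ + ((p ^ 2 / 4 + A ^ 2 : ℝ) : ℂ) = 0 := by
  apply Complex.ext
  · simp [sq]; ring
  · simp [sq]; ring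

theorem exists_roots : ∃ (v : ℝ) (z1 z2 : ℂ), 1 < v ∧
    z1 ^ 4 + z1 + 1 = 0 ∧ z2 ^ 4 + z2 + 1 = 0 ∧ Complex.normSq z1 = v ∧
    (v + v⁻¹) ^ 3 - 4 * (v + v⁻¹) - 1 = 0 ∧ 0 < z1.im ∧ 0 < z2.im ∧ 0 < z1.re ∧ z2.re < 0 := by
  obtain ⟨s, hs, hs0⟩ : ∃ s ∈ Set.Icc (2 : ℝ) 3, s ^ 3 - 4 * s - 1 = 0 := by
    have hc : ContinuousOn (fun s : ℝ => s ^ 3 - 4 * s - 1) (Set.Icc 2 3) := by fun_prop
    have := intermediate_value_Icc (by norm_num : (2 : ℝ) ≤ 3) hc
    have h0 : (0 : ℝ) ∈ Set.Icc ((2 : ℝ) ^ 3 - 4 * 2 - 1) ((3 : ℝ) ^ 3 - 4 * 3 - 1) := by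
      constructor <;> norm_num
    obtain ⟨s, hs, h⟩ := this h0
    exact ⟨s, hs, h⟩
  have hs2 : 2 < s := by
    rcases lt_or_eq_of_le hs.1 with h | h
    · exact h
    · rw [← h] at hs0; norm_num at hs0
  set u := Real.sqrt s with hu
  have hu2 : u ^ 2 = s := Real.sq_sqrt (by linarith)
  have hu0 : 0 < u := Real.sqrt_pos.2 (by linarith)
  have hu1 : 1 < u := by nlinarith
  set r := u⁻¹ with hr
  have hur : u * r = 1 := mul_inv_cancel₀ hu0.ne'
  have hr0 : 0 < r := inv_pos.2 hu0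
  have hr1 : r < 1 := by nlinarith
  have hrs : r ^ 2 * s = 1 := by rw [← hu2]; nlinarith
  set v := (s + r) / 2 with hv
  set v' := (s - r) / 2 with hv'
  have hvv : v * v' = 1 := by
    have h1 : s * (v * v' - 1) = 0 := by
      rw [hv, hv']
      linear_combination (1 / 4) * hs0 - (1 / 4) * hrs
    have h2 : v * v' - 1 = 0 := (mul_eq_zero.1 h1).resolve_left (by linarith)
    linarith
  have hv'0 : 0 < v' := by rw [hv']; linarith
  have hvlt : v' < v := by rw [hv, hv']; linarith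
  have hv1 : 1 < v := by nlinarith
  have hvinv : v⁻¹ = v' := inv_eq_of_mul_eq_one_right hvv
  have hsum : v + v' = s := by rw [hv, hv']; ring
  set A := Real.sqrt (s + 2 * r) / 2 with hA
  set B := Real.sqrt (s - 2 * r) / 2 with hB
  have hA2 : A ^ 2 = (s + 2 * r) / 4 := by
    rw [hA, div_pow, Real.sq_sqrt (by linarith)]; ring
  have hB2 : B ^ 2 = (s - 2 * r) / 4 := by
    rw [hB, div_pow, Real.sq_sqrt (by linarith)]; ring
  have hA0 : 0 < A := by
    rw [hA]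
    have : 0 < Real.sqrt (s + 2 * r) := Real.sqrt_pos.2 (by linarith)
    linarith
  have hB0 : 0 < B := by
    rw [hB]
    have : 0 < Real.sqrt (s - 2 * r) := Real.sqrt_pos.2 (by linarith)
    linarith
  have hq1 : u ^ 2 / 4 + A ^ 2 = v := by rw [hA2, hu2, hv]; ring
  have hq2 : (-u) ^ 2 / 4 + B ^ 2 = v' := by rw [hB2, neg_sq, hu2, hv']; ring
  have e1 := quad_root u A
  have e2 := quad_root (-u) B
  rw [hq1] at e1
  rw [hq2] at e2
  have c1 : (v : ℂ) * v' = 1 := by exact_mod_cast hvv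
  have c2 : (v : ℂ) + v' = (u : ℂ) ^ 2 := by
    have : v + v' = u ^ 2 := by rw [hsum, hu2]
    exact_mod_cast this
  have c3 : (u : ℂ) * (v - v') = 1 := by
    have : u * (v - v') = 1 := by rw [← hur, hv, hv']; ring
    exact_mod_cast this
  refine ⟨v, ⟨u / 2, A⟩, ⟨-u / 2, B⟩, hv1, ?_, ?_, ?_, ?_, hA0, hB0, ?_, ?_⟩
  · generalize (⟨u / 2, A⟩ : ℂ) = z at e1
    linear_combination (z ^ 2 + u * z + v') * e1 - z ^ 2 * c2 - z * c3 - c1
  · generalize (⟨-u / 2, B⟩ : ℂ) = z at e2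
    push_cast at e2
    linear_combination (z ^ 2 - u * z + v) * e2 - z ^ 2 * c2 - z * c3 - c1
  · simp [Complex.normSq_apply]
    rw [← hq1]; ring
  · rw [hvinv, hsum, hs0]
  · change 0 < u / 2
    linarith
  · change -u / 2 < 0
    linarith

/-- the ring homomorphism `O → ℂ` given by a root -/
noncomputable def sg (z : ℂ) (hz : z ^ 4 + z + 1 = 0) : Q4 ℤ →+* ℂ :=
  (ev z hz).comp (Q4.map (Int.castRingHom ℂ))

theorem sg_apply (z : ℂ) (hz : z ^ 4 + z + 1 = 0) (p : Q4 ℤ) :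
    sg z hz p = p.a + p.b * z + p.c * z ^ 2 + p.d * z ^ 3 := rfl

theorem sg_al (z : ℂ) (hz : z ^ 4 + z + 1 = 0) : sg z hz al = z := by
  simp [sg_apply]

theorem conj_root {z : ℂ} (hz : z ^ 4 + z + 1 = 0) : (conj z) ^ 4 + conj z + 1 = 0 := by
  have := congrArg conj hz
  simpa using this

theorem sg_conj (z : ℂ) (hz : z ^ 4 + z + 1 = 0) (p : Q4 ℤ) :
    sg (conj z) (conj_root hz) p = conj (sg z hz p) := by
  simp [sg_apply]

theorem norm_one {z1 z2 : ℂ} (h1 : z1 ^ 4 + z1 + 1 = 0) (h2 : z2 ^ 4 + z2 + 1 = 0)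
    (i1 : 0 < z1.im) (i2 : 0 < z2.im) (r1 : 0 < z1.re) (r2 : z2.re < 0) {a a' : Q4 ℤ}
    (haa : a * a' = 1) : ‖sg z1 h1 a * sg z2 h2 a‖ = 1 := by
  have hN : N a * N a' = 1 := by rw [← N_mul, haa, N_one]
  have hN1 : N a = 1 ∨ N a = -1 := Int.eq_one_or_neg_one_of_mul_eq_one hN
  have hprod := N_eq_prod (Q4.map (Int.castRingHom ℂ) a) ![z1, conj z1, z2, conj z2] (by
      intro i j hij
      have hre := congrArg Complex.re hij
      have him := congrArg Complex.im hij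
      fin_cases i <;> fin_cases j <;> simp at hre him ⊢ <;> linarith) (by
      intro i
      fin_cases i
      · exact h1
      · exact conj_root h1
      · exact h2
      · exact conj_root h2)
  rw [N_map, Fin.prod_univ_four] at hprod
  have hprod' : ((N a : ℤ) : ℂ) = sg z1 h1 a * sg (conj z1) (conj_root h1) a * sg z2 h2 a *
      sg (conj z2) (conj_root h2) a := hprod
  rw [sg_conj z1 h1, sg_conj z2 h2] at hprod'
  have h3 : ‖((N a : ℤ) : ℂ)‖ = 1 := by
    rcases hN1 with h | h <;> rw [h] <;> simp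
  rw [hprod', norm_mul, norm_mul, norm_mul, Complex.norm_conj, Complex.norm_conj] at h3
  rw [norm_mul]
  have h4 : (‖sg z1 h1 a‖ * ‖sg z2 h2 a‖) ^ 2 = 1 := by rw [← h3]; ring
  have h5 : 0 ≤ ‖sg z1 h1 a‖ * ‖sg z2 h2 a‖ := by positivity
  exact (pow_eq_one_iff_of_nonneg h5 two_ne_zero).1 h4

theorem al_pow_ne_one {n : ℕ} (hn : 0 < n) : (1 : Q4 ℤ) - al ^ n ≠ 0 := by
  obtain ⟨v, z1, z2, hv, h1, -, hnv, -⟩ := exists_roots
  intro h
  have h2 : (al : Q4 ℤ) ^ n = 1 := (sub_eq_zero.1 h).symm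
  have h3 := congrArg (sg z1 h1) h2
  rw [map_pow, map_one, sg_al] at h3
  have h4 := congrArg Complex.normSq h3
  rw [map_pow, map_one, hnv] at h4
  exact absurd h4 (one_lt_pow₀ hv hn.ne').ne'

end Pool.Agent.Q24.TA
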