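import Pool.Agent.Q24.TA.Roots

/-!
The exterior square `Λ²O = ℤ⁶` with the action of the generator.
-/

namespace Pool.Agent.Q24.TA

open Q4 Polynomial

/-- coordinates `01, 02, 03, 12, 13, 23` -/
abbrev W := Fin 6 → ℤ

/-- the exterior product -/
def wedge (p q : Q4 ℤ) : W :=
  ![p.a * q.b - p.b * q.a, p.a * q.c - p.c * q.a, p.a * q.d - p.d * q.a,
    p.b * q.c - p.c * q.b, p.b * q.d - p.d * q.b, p.c * q.d - p.d * q.c]

/-- the matrix of the exterior square of multiplication by the generator -/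
def Ym : Matrix (Fin 6) (Fin 6) ℤ :=
  !![0, 0, 1, 0, 0, 0; 0, 0, 0, 0, 1, 0; 0, 0, 0, 0, 0, 1; 1, 0, 0, 0, 1, 0; 0, 1, 0, 0, 0, 1;
    0, 0, 0, 1, 0, 0]

/-- its inverse -/
def Yi : Matrix (Fin 6) (Fin 6) ℤ :=
  !![0, -1, 0, 1, 0, 0; 0, 0, -1, 0, 1, 0; 1, 0, 0, 0, 0, 0; 0, 0, 0, 0, 0, 1; 0, 1, 0, 0, 0, 0;
    0, 0, 1, 0, 0, 0]

theorem Ym_Yi : Ym * Yi = 1 := by decide +kernel
theorem Yi_Ym : Yi * Ym = 1 := by decide +kernel

theorem S_cubic : (Ym + Yi) * (Ym + Yi) * (Ym + Yi) - 4 * (Ym + Yi) - 1 = 0 := by decide +kernel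

theorem wedge_al (p q : Q4 ℤ) : wedge (al * p) (al * q) = Ym.mulVec (wedge p q) := by
  ext i
  fin_cases i <;>
  simp [wedge, Ym, Matrix.mulVec, dotProduct, Fin.sum_univ_six] <;> ring

theorem wedge_add_left (p p' q : Q4 ℤ) : wedge (p + p') q = wedge p q + wedge p' q := by
  ext i
  fin_cases i <;> simp [wedge] <;> ring

theorem wedge_add_right (p q q' : Q4 ℤ) : wedge p (q + q') = wedge p q + wedge p q' := by
  ext i
  fin_cases i <;> simp [wedge] <;> ring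

theorem wedge_comm (p q : Q4 ℤ) : wedge q p = - wedge p q := by
  ext i
  fin_cases i <;> simp [wedge] <;> ring

theorem wedge_zero_left (q : Q4 ℤ) : wedge 0 q = 0 := by
  ext i
  fin_cases i <;> simp [wedge]

theorem wedge_eq_zero {p q : Q4 ℤ} (hp : p ≠ 0) (h : wedge p q = 0) :
    ∃ k l : ℤ, k ≠ 0 ∧ Q4.C k * q = Q4.C l * p := by
  have h0 := congrFun h 0
  have h1 := congrFun h 1
  have h2 := congrFun h 2
  have h3 := congrFun h 3
  have h4 := congrFun h 4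
  have h5 := congrFun h 5
  simp [wedge] at h0 h1 h2 h3 h4 h5
  by_cases ha : p.a = 0
  · by_cases hb : p.b = 0
    · by_cases hc : p.c = 0
      · by_cases hd : p.d = 0
        · exfalso
          apply hp
          ext
          · exact ha
          · exact hb
          · exact hc
          · exact hd
        · refine ⟨p.d, q.d, hd, ?_⟩
          ext
          · rw [C_mul_a, C_mul_a]; linear_combination -h2
          · rw [C_mul_b, C_mul_b]; linear_combination -h4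
          · rw [C_mul_c, C_mul_c]; linear_combination -h5
          · rw [C_mul_d, C_mul_d]; ring
      · refine ⟨p.c, q.c, hc, ?_⟩
        ext
        · rw [C_mul_a, C_mul_a]; linear_combination -h1
        · rw [C_mul_b, C_mul_b]; linear_combination -h3
        · rw [C_mul_c, C_mul_c]; ring
        · rw [C_mul_d, C_mul_d]; linear_combination h5
    · refine ⟨p.b, q.b, hb, ?_⟩
      ext
      · rw [C_mul_a, C_mul_a]; linear_combination -h0
      · rw [C_mul_b, C_mul_b]; ring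
      · rw [C_mul_c, C_mul_c]; linear_combination h3
      · rw [C_mul_d, C_mul_d]; linear_combination h4
  · refine ⟨p.a, q.a, ha, ?_⟩
    ext
    · rw [C_mul_a, C_mul_a]; ring
    · rw [C_mul_b, C_mul_b]; linear_combination h0
    · rw [C_mul_c, C_mul_c]; linear_combination h1
    · rw [C_mul_d, C_mul_d]; linear_combination h2

/-- the functional on `Λ²O` given by two roots -/
noncomputable def Lf (z1 z2 : ℂ) : W →+ ℂ where
  toFun w := w 0 * (z2 - z1) + w 1 * (z2 ^ 2 - z1 ^ 2) + w 2 * (z2 ^ 3 - z1 ^ 3)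
    + w 3 * (z1 * z2 ^ 2 - z1 ^ 2 * z2) + w 4 * (z1 * z2 ^ 3 - z1 ^ 3 * z2)
    + w 5 * (z1 ^ 2 * z2 ^ 3 - z1 ^ 3 * z2 ^ 2)
  map_zero' := by simp
  map_add' w w' := by simp; ring

theorem Lf_apply (z1 z2 : ℂ) (w : W) : Lf z1 z2 w = w 0 * (z2 - z1) + w 1 * (z2 ^ 2 - z1 ^ 2)
    + w 2 * (z2 ^ 3 - z1 ^ 3)
    + w 3 * (z1 * z2 ^ 2 - z1 ^ 2 * z2) + w 4 * (z1 * z2 ^ 3 - z1 ^ 3 * z2)
    + w 5 * (z1 ^ 2 * z2 ^ 3 - z1 ^ 3 * z2 ^ 2) := rfl

theorem Lf_wedge {z1 z2 : ℂ} (h1 : z1 ^ 4 + z1 + 1 = 0) (h2 : z2 ^ 4 + z2 + 1 = 0) (p q : Q4 ℤ) :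
    Lf z1 z2 (wedge p q) = sg z1 h1 p * sg z2 h2 q - sg z1 h1 q * sg z2 h2 p := by
  rw [Lf_apply]
  simp only [sg_apply, wedge]
  simp
  ring

/-- The polynomials `D_n` with `D_n(y + 1/y) = y^n + 1/y^n`. -/
noncomputable def Dp : ℕ → ℚ[X]
  | 0 => 2
  | 1 => X
  | n + 2 => X * Dp (n + 1) - Dp n

theorem Dp_aeval {A : Type} [Ring A] [Algebra ℚ A] (y y' : A) (h : y * y' = 1) (h' : y' * y = 1) :
    ∀ n, aeval (y + y') (Dp n) = y ^ n + y' ^ n ∧
      aeval (y + y') (Dp (n + 1)) = y ^ (n + 1) + y' ^ (n + 1) := by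
  intro n
  induction n with
  | zero =>
    constructor
    · have e : Dp 0 = 2 := rfl
      rw [e, map_ofNat, pow_zero, pow_zero, one_add_one_eq_two]
    · simp [Dp]
  | succ n ih =>
    refine ⟨ih.2, ?_⟩
    have e : Dp (n + 1 + 1) = X * Dp (n + 1) - Dp n := rfl
    rw [e, map_sub, map_mul, ih.1, ih.2, aeval_X]
    have e1 : y * y' ^ (n + 1) = y' ^ n := by rw [pow_succ', ← mul_assoc, h, one_mul]
    have e2 : y' * y ^ (n + 1) = y ^ n := by rw [pow_succ', ← mul_assoc, h', one_mul]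
    rw [add_mul, mul_add, mul_add, e1, e2, ← pow_succ', ← pow_succ']
    abel

theorem cubic_irr : Irreducible (X ^ 3 - 4 * X - 1 : ℚ[X]) := by
  have hdeg : (X ^ 3 - 4 * X - 1 : ℚ[X]).natDegree = 3 := by
    have h4 : (4 : ℚ[X]) = Polynomial.C 4 := rfl
    rw [h4]
    compute_degree!
  rw [Polynomial.irreducible_iff_roots_eq_zero_of_degree_le_three (by rw [hdeg]; norm_num)
    (by rw [hdeg])]
  by_contra hne
  obtain ⟨r, hr⟩ := Multiset.exists_mem_of_ne_zero hne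
  have hr' : r ^ 3 - 4 * r - 1 = 0 := by
    have := (mem_roots'.1 hr).2
    simpa [IsRoot] using this
  -- the root is an integer
  have hint : IsIntegral ℤ r := by
    refine ⟨(X ^ 3 - Polynomial.C 4 * X - Polynomial.C 1 : ℤ[X]), ?_, ?_⟩
    · monicity!
    · simp [eval₂_sub]
      exact hr'
  obtain ⟨k, hk⟩ := IsIntegrallyClosed.isIntegral_iff.1 hint
  have hk' : k ^ 3 - 4 * k - 1 = 0 := by
    have : ((k ^ 3 - 4 * k - 1 : ℤ) : ℚ) = 0 := by
      push_cast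
      rw [← hr', ← hk]
      rfl
    exact_mod_cast this
  have h1 : k * (k ^ 2 - 4) = 1 := by linear_combination hk'
  rcases Int.eq_one_or_neg_one_of_mul_eq_one h1 with h | h
  · rw [h] at h1; norm_num at h1
  · rw [h] at h1; norm_num at h1

theorem cubic_not_dvd {n : ℕ} (hn : 0 < n) : ¬ (X ^ 3 - 4 * X - 1 : ℚ[X]) ∣ 2 - Dp n := by
  obtain ⟨v, z1, z2, hv, -, -, -, hs, -⟩ := exists_roots
  rintro ⟨q, hq⟩
  have h1 := congrArg (aeval (v + v⁻¹)) hq
  have hv0 : v ≠ 0 := by linarith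
  rw [map_sub, (Dp_aeval v v⁻¹ (mul_inv_cancel₀ hv0) (inv_mul_cancel₀ hv0) n).1, map_mul] at h1
  have h2 : aeval (v + v⁻¹) (X ^ 3 - 4 * X - 1 : ℚ[X]) = 0 := by
    rw [map_sub, map_sub, map_pow, map_mul, aeval_X, map_one, map_ofNat]
    exact hs
  rw [h2, zero_mul] at h1
  have h3 : 1 < v ^ n := one_lt_pow₀ hv hn.ne'
  have h4 : v⁻¹ ^ n = (v ^ n)⁻¹ := inv_pow v n
  rw [h4] at h1
  have h5 : (v ^ n) * (v ^ n)⁻¹ = 1 := mul_inv_cancel₀ (by linarith)
  have h6 : (v ^ n - 1) ^ 2 = 0 := by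
    have h7 : (2 : ℝ) - (v ^ n + (v ^ n)⁻¹) = 0 := by
      rw [map_ofNat] at h1
      exact h1
    linear_combination (-(v ^ n)) * h7 - h5
  have h8 : v ^ n - 1 = 0 := by
    exact pow_eq_zero_iff two_ne_zero |>.1 h6
  linarith

theorem det_ne_zero {n : ℕ} (hn : 0 < n) : (1 - Ym ^ n).det ≠ 0 := by
  intro h0
  obtain ⟨U, V, hUV⟩ := (cubic_irr.coprime_iff_not_dvd).2 (cubic_not_dvd hn)
  set f := (Int.castRingHom ℚ).mapMatrix (m := Fin 6) with hf
  have e1 : f Ym * f Yi = 1 := by rw [← map_mul, Ym_Yi, map_one]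
  have e2 : f Yi * f Ym = 1 := by rw [← map_mul, Yi_Ym, map_one]
  have h1 := congrArg (aeval (f Ym + f Yi)) hUV
  rw [map_add, map_mul, map_mul, map_one, map_sub _ 2 (Dp n), (Dp_aeval _ _ e1 e2 n).1] at h1
  have h2 : aeval (f Ym + f Yi) (X ^ 3 - 4 * X - 1 : ℚ[X]) = 0 := by
    have h3 := congrArg f S_cubic
    rw [map_sub, map_sub, map_mul, map_mul, map_mul, map_add, map_zero, map_one] at h3
    have h4 : f 4 = 4 := map_ofNat f 4
    rw [h4] at h3
    rw [map_sub, map_sub, map_pow, map_mul, aeval_X, map_one, map_ofNat, pow_three, ← h3, mul_assoc]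
  rw [h2, mul_zero, zero_add] at h1
  have h5 : (aeval (f Ym + f Yi) (2 : ℚ[X])) - (f Ym ^ n + f Yi ^ n) =
      (1 - f Yi ^ n) * (1 - f Ym ^ n) := by
    have h6 : f Yi ^ n * f Ym ^ n = 1 := by
      have hc : Commute (f Yi) (f Ym) := by
        change f Yi * f Ym = f Ym * f Yi
        rw [e1, e2]
      rw [← hc.mul_pow, e2, one_pow]
    rw [sub_mul, mul_sub, mul_sub, h6, map_ofNat]
    simp only [one_mul, mul_one]
    have : (2 : Matrix (Fin 6) (Fin 6) ℚ) = 1 + 1 := by norm_num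
    rw [this]
    abel
  rw [h5, ← mul_assoc] at h1
  have h7 := congrArg Matrix.det h1
  rw [Matrix.det_mul, Matrix.det_one] at h7
  have h8 : (1 - f Ym ^ n).det = 0 := by
    have h9 : 1 - f Ym ^ n = f (1 - Ym ^ n) := by rw [map_sub, map_one, map_pow]
    rw [h9, hf, ← RingHom.map_det, h0, map_zero]
  rw [h8, mul_zero] at h7
  exact zero_ne_one h7

end Pool.Agent.Q24.TA
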